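import Pool.Agent.Y45.MON.LStm

set_option autoImplicit false

/-!
# MON-LG5a (job 1782, helper246 for helper45): from `CoreStmt` to the undecidability of commutativity
-/

namespace Pool.Agent.Y246.MON

open Pool.Agent.Y45.MON

theorem ab_of_core (h : CoreStmt) : AbStmt := by
  obtain ⟨p, q, F, P, -, -, -, hF, hP, -, h1, U, h2⟩ := h
  intro hc
  apply hP
  obtain ⟨f, hf, hfe⟩ := ComputablePred.computable_iff.1 hc
  refine ComputablePred.computable_iff.2 ⟨fun n => f (F n), hf.comp hF, ?_⟩
  funext n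
  have h3 := congrFun hfe (F n)
  rw [← h3]
  refine propext ⟨fun hn => h1 n hn, fun hn => ?_⟩
  by_contra hnP
  obtain ⟨G, _, g1, ⟨x, y, -, hxy⟩, -, -⟩ := h2 n hnP ∅
  exact hxy (hn G g1 x y)

/-- the check that `AbStmt` is literally the frozen statement `S15282` -/
theorem frozen_of_core (h : CoreStmt) : ¬ (ComputablePred (fun L : List (List (ℕ × Bool)) =>
      ∀ (G : Type) [Group G],
        (∀ w ∈ L, ∀ f : ℕ → G, FreeGroup.lift f (FreeGroup.mk w) = 1) →
        ∀ a b : G, a * b = b * a)) := ab_of_core h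

end Pool.Agent.Y246.MON
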