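import Pool.Agent.Y45.MON.StmG

set_option autoImplicit false

/-!
# MON-G9 (job 1646, helper246 for helper45): products of new torsion elements
-/

namespace Pool.Agent.Y246.MON

open Pool.Agent.TH54.BU Pool.Agent.Y45.MON

section

variable {G : Type} [Group G] {H : GH G} {c θ T : ℕ} (L : LS H c θ T)

/-- the projections of the ends of a conjugate of a power of `x i` -/
theorem pc_aux (i : L.ι) {b : G} (hb : b ∉ Subgroup.zpowers (L.x i))
    (hmin : ∀ s : ℤ, H.len b ≤ H.len (L.x i ^ s * b))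
    (hmin2 : ∀ s t : ℤ, H.len b ≤ H.len (L.x i ^ s * b * L.x i ^ t)) {k : ℤ}
    (hk : b * L.x i ^ k * b⁻¹ ∉ Subgroup.zpowers (L.x i)) (t : ℤ) :
    |L.s i 1 1 (b * L.x i ^ k * b⁻¹ * L.x i ^ t)| ≤ ((T * (2 * c + 2 * θ) : ℕ) : ℤ) := by
  set τ := b * L.x i ^ k * b⁻¹ with hτ
  have d1 : L.D i 1 1 b ≤ c := by
    by_contra hcon
    push Not at hcon
    have h1 := L.wf_proj_s i 1 1 b hcon
    have h2 : H.len b ≤ H.d b (L.pr i 1 b) := by
      rw [H.d_comm]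
      have h3 := hmin (-(L.κ i (1⁻¹ * b)))
      unfold GH.d LS.pr
      rw [one_mul, ← zpow_neg]
      exact h3
    rw [H.d_one, H.d_one] at h1
    omega
  have d2 : L.D i 1 b (b * L.x i ^ k) ≤ θ := by
    have h1 := L.wf_ov (i := i) (j := i) (u := 1) (w := b) (by
      intro _
      rw [inv_one, one_mul]
      exact hb) 0 k
    rwa [zpow_zero, mul_one] at h1
  have d3 : L.D i 1 (b * L.x i ^ k) τ ≤ c := by
    have e1 : L.D i 1 (b * L.x i ^ k) τ = L.D i (τ⁻¹ * 1) b 1 := by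
      rw [← L.ky_D_mul, mul_one]
      congr 1
      rw [hτ]
      group
    rw [e1]
    by_contra hcon
    push Not at hcon
    have h1 := L.wf_proj_s i _ b 1 hcon
    have h2 : H.len b ≤ H.d b (L.pr i (τ⁻¹ * 1) b) := by
      rw [← H.d_mul τ, H.d_comm]
      have h3 := hmin2 (-(L.κ i ((τ⁻¹ * 1)⁻¹ * b))) k
      unfold GH.d LS.pr
      have e2 : (τ * (τ⁻¹ * 1 * L.x i ^ L.κ i ((τ⁻¹ * 1)⁻¹ * b)))⁻¹ * (τ * b) =
          L.x i ^ (-(L.κ i ((τ⁻¹ * 1)⁻¹ * b))) * b * L.x i ^ k := by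
        rw [mul_one, mul_inv_cancel_left, zpow_neg]
        rw [hτ]
        group
      rw [e2]
      exact h3
    rw [H.d_one'] at h1
    omega
  have d4 : L.D i 1 τ (τ * L.x i ^ t) ≤ θ := by
    have h1 := L.wf_ov (i := i) (j := i) (u := 1) (w := τ) (by
      intro _
      rw [inv_one, one_mul]
      exact hk) 0 t
    rwa [zpow_zero, mul_one] at h1
  have t1 := L.wf_D_tri i 1 1 b (τ * L.x i ^ t)
  have t2 := L.wf_D_tri i 1 b (b * L.x i ^ k) (τ * L.x i ^ t)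
  have t3 := L.wf_D_tri i 1 (b * L.x i ^ k) τ (τ * L.x i ^ t)
  have h1 := L.rg_s_le i 1 1 (τ * L.x i ^ t)
  have h2 : T * L.D i 1 1 (τ * L.x i ^ t) ≤ T * (2 * c + 2 * θ) :=
    Nat.mul_le_mul_left _ (by omega)
  have h3 : ((T * L.D i 1 1 (τ * L.x i ^ t) : ℕ) : ℤ) ≤ ((T * (2 * c + 2 * θ) : ℕ) : ℤ) := by
    exact_mod_cast h2
  push_cast at h3 ⊢
  linarith

/-- the powers of `τ x ^ k` -/
def wv (τ y : G) (N : ℕ) : G := (τ * y) ^ N

end

theorem new_of (hgen : GenStmt) (htau : TauStmt) : NewStmt := by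
  intro G _ H c θ T L n M _ F hn i k1 k2 b hk1 hk1n hk2 hk2n hb hfin
  -- the minimal element
  obtain ⟨b', ⟨m0, hm0, s0, t0, hb'⟩, hmin0⟩ := cl_min
    (fun b' : G => ∃ m ∈ M, ∃ s t : ℤ, b' = m * L.x i ^ s * b * L.x i ^ t) H.len
    ⟨b, 1, M.one_mem, 0, 0, by simp⟩
  have hmin : ∀ m ∈ M, ∀ s t : ℤ, H.len b' ≤ H.len (m * L.x i ^ s * b' * L.x i ^ t) := by
    intro m hm s t
    apply hmin0
    refine ⟨m * (L.x i ^ s * m0 * (L.x i ^ s)⁻¹), M.mul_mem hm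
      (Subgroup.Normal.conj_mem inferInstance m0 hm0 (L.x i ^ s)), s + s0, t0 + t, ?_⟩
    rw [hb', zpow_add, zpow_add]
    group
  -- classes modulo `M`
  have hbq : ((b' : G) : G ⧸ M) = (L.x i : G ⧸ M) ^ s0 * (b : G ⧸ M) * (L.x i : G ⧸ M) ^ t0 := by
    rw [hb', QuotientGroup.mk_mul, QuotientGroup.mk_mul, QuotientGroup.mk_mul,
      (QuotientGroup.eq_one_iff m0).2 hm0, one_mul, QuotientGroup.mk_zpow, QuotientGroup.mk_zpow]
  have hb0 : b' ∉ Subgroup.zpowers (L.x i) := by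
    rintro ⟨r, hr⟩
    have hr' : L.x i ^ r = b' := hr
    apply hb (-(r - t0 - s0))
    rw [← QuotientGroup.eq_one_iff, QuotientGroup.mk_mul, QuotientGroup.mk_zpow]
    have e1 : (b : G ⧸ M) = (L.x i : G ⧸ M) ^ (-s0) * (b' : G ⧸ M) * (L.x i : G ⧸ M) ^ (-t0) := by
      rw [hbq]
      group
    rw [e1, ← hr', QuotientGroup.mk_zpow]
    group
  have hτ : ∀ k : ℤ, k ≠ 0 → b' * L.x i ^ k * b'⁻¹ ∉ Subgroup.zpowers (L.x i) := by
    rintro k hk ⟨r, hr⟩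
    have hr' : L.x i ^ r = b' * L.x i ^ k * b'⁻¹ := hr
    apply hk
    refine L.rg_common (i1 := i) (i2 := i) (P1 := b') (P2 := 1) (k1 := k) (k2 := r) ?_ ?_
    · intro _ h
      rw [mul_one] at h
      exact hb0 ((Subgroup.inv_mem_iff _).1 h)
    · unfold LS.rt
      rw [one_mul, inv_one, mul_one, hr']
  have hmin1 : ∀ s t : ℤ, H.len b' ≤ H.len (L.x i ^ s * b' * L.x i ^ t) := by
    intro s t
    have := hmin 1 M.one_mem s t
    rwa [one_mul] at this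
  have hmin2 : ∀ s : ℤ, H.len b' ≤ H.len (L.x i ^ s * b') := by
    intro s
    have := hmin1 s 0
    rwa [zpow_zero, mul_one] at this
  set τ := b' * L.x i ^ k2 * b'⁻¹ with hτdef
  have hτinv : τ⁻¹ = b' * L.x i ^ (-k2) * b'⁻¹ := by
    rw [hτdef, zpow_neg]
    group
  have hPC : PC L i (T * (2 * c + 2 * θ)) τ := by
    intro t
    refine ⟨pc_aux L i hb0 hmin2 hmin1 (hτ k2 hk2) t, ?_⟩
    rw [hτinv]
    exact pc_aux L i hb0 hmin2 hmin1 (hτ (-k2) (neg_ne_zero.2 hk2)) t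
  -- constants
  have hT : 1 ≤ T := L.cl_T i
  set Z := T * (c + θ + 1) with hZ
  have hZ1 : T * (2 * c + 2 * θ) ≤ 2 * Z := by
    have e : 2 * Z = T * (2 * c + 2 * θ + 2) := by rw [hZ]; ring
    rw [e]
    exact Nat.mul_le_mul_left _ (by omega)
  have hZ2 : L.thr ≤ 2 * Z := by
    have e : 2 * Z = T * (2 * c + 2 * θ + 2) := by rw [hZ]; ring
    rw [e]
    exact Nat.mul_le_mul_left _ (by omega)
  have hc1 : cst L 0 0 = 1000 * (Z + 1) := by
    unfold cst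
    rw [hZ]
  have hc2 : 1000 * (Z + 1) ≤ cstT L := by
    unfold cstT
    have h1 : Z ≤ (T + 1) * (c + θ + H.D + 1) := by
      rw [hZ]
      exact Nat.mul_le_mul (by omega) (by omega)
    have h2 : 1 ≤ (T + 1) * (c + θ + H.D + 1) := Nat.mul_pos (by omega) (by omega)
    have h3 : (T + 1) * (c + θ + H.D + 1) ≤ ((T + 1) * (c + θ + H.D + 1)) ^ 2 :=
      Nat.le_self_pow (by norm_num) _
    omega
  set P := T * (2 * c + 2 * θ) with hP
  -- the broken line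
  have hBr : Br L i (fun _ => τ) (fun _ => k1) (wv τ (L.x i ^ k1)) :=
    ⟨by simp [wv], fun k => by
      unfold wv
      rw [pow_succ]
      group, fun _ => hτ k2 hk2⟩
  rw [hc1] at hk1
  have hk1' : ((4 * P + 8 * L.thr + 8 : ℕ) : ℤ) < |k1| := by
    have h1 : 4 * P + 8 * L.thr + 8 < 1000 * (Z + 1) := by omega
    have h2 : ((4 * P + 8 * L.thr + 8 : ℕ) : ℤ) < ((1000 * (Z + 1) : ℕ) : ℤ) := by
      exact_mod_cast h1
    linarith
  obtain ⟨-, -, -, -, g5, -, g7⟩ := hgen G H c θ T L i (fun _ => τ) (fun _ => k1)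
    (wv τ (L.x i ^ k1)) P hBr (fun _ => hPC) (fun _ => hk1')
  have hv0 : wv τ (L.x i ^ k1) 0 = 1 := by simp [wv]
  -- finite order
  have hfin2 : IsOfFinOrder ((τ * L.x i ^ k1 : G) : G ⧸ M) := by
    have e1 : ((τ * L.x i ^ k1 : G) : G ⧸ M) = (L.x i : G ⧸ M) ^ (s0 - k1) *
        ((L.x i ^ k1 * b * L.x i ^ k2 * b⁻¹ : G) : G ⧸ M) * ((L.x i : G ⧸ M) ^ (s0 - k1))⁻¹ := by
      rw [hτdef]
      simp only [QuotientGroup.mk_mul, QuotientGroup.mk_inv, QuotientGroup.mk_zpow]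
      rw [hbq]
      group
    rw [e1]
    obtain ⟨N, hN, hN1⟩ := isOfFinOrder_iff_pow_eq_one.1 hfin
    refine isOfFinOrder_iff_pow_eq_one.2 ⟨N, hN, ?_⟩
    rw [conj_pow, hN1]
    group
  obtain ⟨N, hN, hN1⟩ := isOfFinOrder_iff_pow_eq_one.1 hfin2
  rw [← QuotientGroup.mk_pow, QuotientGroup.eq_one_iff] at hN1
  have hne : (τ * L.x i ^ k1) ^ N ≠ 1 := by
    intro h1
    have h2 := g5 0 N (by omega)
    have h3 : wv τ (L.x i ^ k1) N = 1 := h1
    rw [h3, hv0, L.wf_s_self, zero_sub, abs_neg] at h2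
    have h4 : 2 * (P + L.thr) < 4 * P + 8 * L.thr + 8 := by omega
    have h5 : ((2 * (P + L.thr) : ℕ) : ℤ) < ((4 * P + 8 * L.thr + 8 : ℕ) : ℤ) := by
      exact_mod_cast h4
    push_cast at h5 hk1' h2
    linarith
  obtain ⟨j, u, hgr⟩ := F.gr _ hN1 hne 1
  rw [mul_one] at hgr
  have hcst : (1000 * (Z + 1) : ℤ) ≤ (cstT L : ℕ) := by exact_mod_cast hc2
  have hPz : (P : ℤ) ≤ 2 * Z := by exact_mod_cast hZ1
  have hthz : (L.thr : ℤ) ≤ 2 * Z := by exact_mod_cast hZ2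
  have hZ0 : (0 : ℤ) ≤ Z := Int.natCast_nonneg _
  by_cases hcase : ∃ q < N, j = i ∧ (wv τ (L.x i ^ k1) (q + 1))⁻¹ * u ∈ Subgroup.zpowers (L.x i)
  · obtain ⟨q, hq, rfl, hmem⟩ := hcase
    have h1 := g5 q N (by omega)
    have h2 : L.s j u 1 ((τ * L.x j ^ k1) ^ N) =
        L.s j (wv τ (L.x j ^ k1) (q + 1)) (wv τ (L.x j ^ k1) 0) (wv τ (L.x j ^ k1) N) := by
      rw [hv0]
      obtain ⟨a, ha⟩ := hmem
      have ha' : L.x j ^ a = (wv τ (L.x j ^ k1) (q + 1))⁻¹ * u := ha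
      have hu : u = wv τ (L.x j ^ k1) (q + 1) * L.x j ^ a := by
        rw [ha']
        group
      conv_lhs => rw [hu, L.wf_s_base]
      rfl
    rw [h2] at hgr
    have hnj : (4 * cstT L : ℤ) ≤ n j := by exact_mod_cast hn j
    rcases abs_cases (L.s j (wv τ (L.x j ^ k1) (q + 1)) (wv τ (L.x j ^ k1) 0)
      (wv τ (L.x j ^ k1) N)) with ⟨e1, _⟩ | ⟨e1, _⟩ <;>
    rcases abs_cases (L.s j (wv τ (L.x j ^ k1) (q + 1)) (wv τ (L.x j ^ k1) 0)
      (wv τ (L.x j ^ k1) N) - k1) with ⟨e2, _⟩ | ⟨e2, _⟩ <;>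
    rcases abs_cases k1 with ⟨e3, _⟩ | ⟨e3, _⟩ <;>
    rw [e1] at hgr <;> rw [e2] at h1 <;> rw [e3] at hk1n <;> linarith
  · push Not at hcase
    have hnj : (4 * cstT L : ℤ) ≤ n j := by exact_mod_cast hn j
    have h7 := g7 j u N (by
      intro q hq h
      exact hcase q hq h.1 h.2)
    rcases h7 with h7 | ⟨q, hq, h7⟩
    · rw [hv0] at h7
      have h8 : |L.s j u 1 ((τ * L.x i ^ k1) ^ N)| ≤ 2 * L.thr := h7
      linarith
    · rw [hv0] at h7
      have h8 : |L.s j u 1 ((τ * L.x i ^ k1) ^ N) -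
          L.s j u (wv τ (L.x i ^ k1) q) (wv τ (L.x i ^ k1) q * τ)| ≤ 2 * L.thr := h7
      have h9 : L.s j u (wv τ (L.x i ^ k1) q) (wv τ (L.x i ^ k1) q * τ) =
          L.s j ((wv τ (L.x i ^ k1) q)⁻¹ * u) 1 τ := by
        rw [← L.ky_s_mul, mul_one]
      rw [h9] at h8
      have h10 := htau G H c θ T L n M F (fun i => by
        have := hn i
        omega) i k2 b' hk2 hk2n (by
          intro m hm t
          have := hmin m hm 0 t
          rwa [zpow_zero, mul_one] at this) j ((wv τ (L.x i ^ k1) q)⁻¹ * u)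
      rw [← hτdef] at h10
      have h11 := abs_sub_abs_le_abs_sub (L.s j u 1 ((τ * L.x i ^ k1) ^ N))
        (L.s j ((wv τ (L.x i ^ k1) q)⁻¹ * u) 1 τ)
      linarith

end Pool.Agent.Y246.MON
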